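import Mathlib

/-!
Clusters of arbitrary size in general position inside given open sets.
-/

namespace Pool.Agent.P.MP_3fef46_co.H85

open MeasureTheory

/-- the orientation determinant of three real points -/
def det (p q r : ℝ × ℝ) : ℝ := (q.1 - p.1) * (r.2 - p.2) - (q.2 - p.2) * (r.1 - p.1)

theorem det_eq_zero_of_collinear {x y z : ℝ × ℝ}
    (h : Collinear ℝ ({x, y, z} : Set (ℝ × ℝ))) : det x y z = 0 := by
  rw [collinear_iff_of_mem (p₀ := x) (by simp)] at h
  obtain ⟨v, hv⟩ := h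
  obtain ⟨r, hr⟩ := hv y (by simp)
  obtain ⟨s, hs⟩ := hv z (by simp)
  rw [hr, hs]
  simp only [det, vadd_eq_add, Prod.fst_add, Prod.snd_add, Prod.smul_fst, Prod.smul_snd,
    smul_eq_mul]
  ring

theorem mem_hull_of_inside {A : Set (ℝ × ℝ)} {a b c d : ℝ × ℝ} (ha : a ∈ A) (hb : b ∈ A)
    (hc : c ∈ A) (h1 : 0 < det a b d) (h2 : 0 < det b c d) (h3 : 0 < det c a d) :
    d ∈ convexHull ℝ A := by
  have hconv := convex_convexHull ℝ A
  have ha' := subset_convexHull ℝ A ha
  have hb' := subset_convexHull ℝ A hb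
  have hc' := subset_convexHull ℝ A hc
  set u := det b c d with hu
  set v := det c a d with hv
  set w := det a b d with hw
  have huv : 0 < u + v := by positivity
  have hD : 0 < u + v + w := by positivity
  have hm : (u / (u + v)) • a + (v / (u + v)) • b ∈ convexHull ℝ A :=
    hconv ha' hb' (by positivity) (by positivity) (by field_simp)
  have hd : ((u + v) / (u + v + w)) • ((u / (u + v)) • a + (v / (u + v)) • b) +
      (w / (u + v + w)) • c ∈ convexHull ℝ A :=
    hconv hm hc' (by positivity) (by positivity) (by field_simp)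
  have e : ((u + v) / (u + v + w)) • ((u / (u + v)) • a + (v / (u + v)) • b) +
      (w / (u + v + w)) • c = d := by
    ext
    · simp only [Prod.fst_add, Prod.smul_fst, smul_eq_mul]
      field_simp
      simp only [hu, hv, hw, det]
      ring
    · simp only [Prod.snd_add, Prod.smul_snd, smul_eq_mul]
      field_simp
      simp only [hu, hv, hw, det]
      ring
  rwa [e] at hd

/-- no three distinct points on a line -/
def GP (S : Finset (ℝ × ℝ)) : Prop :=
  ∀ x ∈ S, ∀ y ∈ S, ∀ z ∈ S, x ≠ y → x ≠ z → y ≠ z → det x y z ≠ 0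

theorem line_null {y z : ℝ × ℝ} (h : y ≠ z) : volume {x : ℝ × ℝ | det x y z = 0} = 0 := by
  have hsub : {x : ℝ × ℝ | det x y z = 0} ⊆ (affineSpan ℝ ({y, z} : Set (ℝ × ℝ)) : Set (ℝ × ℝ)) := by
    intro x hx
    simp only [Set.mem_ofPred_eq, det] at hx
    have hne : z.1 - y.1 ≠ 0 ∨ z.2 - y.2 ≠ 0 := by
      by_contra hc
      push Not at hc
      exact h (Prod.ext (by linarith [hc.1]) (by linarith [hc.2]))
    rcases hne with h1 | h1
    · have : x = AffineMap.lineMap y z ((x.1 - y.1) / (z.1 - y.1)) := by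
        ext
        · simp [AffineMap.lineMap_apply]; field_simp; ring
        · simp [AffineMap.lineMap_apply]; field_simp; linarith
      rw [this]; exact AffineMap.lineMap_mem_affineSpan_pair _ _ _
    · have : x = AffineMap.lineMap y z ((x.2 - y.2) / (z.2 - y.2)) := by
        ext
        · simp [AffineMap.lineMap_apply]; field_simp; linarith
        · simp [AffineMap.lineMap_apply]; field_simp; ring
      rw [this]; exact AffineMap.lineMap_mem_affineSpan_pair _ _ _
  refine measure_mono_null hsub (Measure.addHaar_affineSubspace _ _ ?_)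
  intro htop
  have h1 : Module.finrank ℝ (vectorSpan ℝ ({y, z} : Set (ℝ × ℝ))) ≤ 1 :=
    (collinear_iff_finrank_le_one.mp (collinear_pair ℝ y z))
  rw [← direction_affineSpan, htop, AffineSubspace.direction_top, finrank_top] at h1
  simp at h1

theorem exists_new (S : Finset (ℝ × ℝ)) (hS : GP S) {U : Set (ℝ × ℝ)} (hU : IsOpen U)
    (hne : U.Nonempty) :
    ∃ x ∈ U, x ∉ S ∧ GP (insert x S) := by
  classical
  have hnull : volume ((S : Set (ℝ × ℝ)) ∪
      ⋃ p ∈ (S ×ˢ S).filter (fun p : (ℝ × ℝ) × (ℝ × ℝ) => p.1 ≠ p.2), {x : ℝ × ℝ | det x p.1 p.2 = 0}) = 0 := by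
    refine measure_union_null (S.finite_toSet.measure_zero _) ?_
    refine (measure_biUnion_null_iff (Finset.countable_toSet _)).mpr ?_
    intro p hp
    exact line_null (Finset.mem_filter.mp hp).2
  have hpos : volume U ≠ 0 := (hU.measure_pos _ hne).ne'
  obtain ⟨x, hx, hx'⟩ : ∃ x ∈ U, x ∉ ((S : Set (ℝ × ℝ)) ∪
      ⋃ p ∈ (S ×ˢ S).filter (fun p : (ℝ × ℝ) × (ℝ × ℝ) => p.1 ≠ p.2), {x : ℝ × ℝ | det x p.1 p.2 = 0}) := by
    by_contra hc
    push Not at hc
    exact hpos (measure_mono_null hc hnull)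
  have hxS : x ∉ S := fun h => hx' (Or.inl h)
  have hd : ∀ y ∈ S, ∀ z ∈ S, y ≠ z → det x y z ≠ 0 := by
    intro y hy z hz hyz h0
    refine hx' (Or.inr ?_)
    simp only [Set.mem_iUnion]
    exact ⟨(y, z), Finset.mem_filter.mpr ⟨Finset.mem_product.mpr ⟨hy, hz⟩, hyz⟩, h0⟩
  refine ⟨x, hx, hxS, ?_⟩
  intro u hu v hv w hw huv huw hvw
  rw [Finset.mem_insert] at hu hv hw
  rcases hu with rfl | hu
  · exact hd v (hv.resolve_left (Ne.symm huv)) w (hw.resolve_left (Ne.symm huw)) hvw
  rcases hv with rfl | hv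
  · have := hd u hu w (hw.resolve_left (Ne.symm hvw)) huw
    intro h0; apply this; unfold det at h0 ⊢; linarith
  rcases hw with rfl | hw
  · have := hd u hu v hv huv
    intro h0; apply this; unfold det at h0 ⊢; linarith
  exact hS u hu v hv w hw huv huw hvw

theorem exists_cluster (S : Finset (ℝ × ℝ)) (hS : GP S) {U : Set (ℝ × ℝ)} (hU : IsOpen U)
    (hne : U.Nonempty) (m : ℕ) :
    ∃ T : Finset (ℝ × ℝ), T.card = m ∧ (∀ x ∈ T, x ∈ U) ∧ Disjoint T S ∧ GP (T ∪ S) := by
  classical
  induction m with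
  | zero => exact ⟨∅, rfl, by simp, by simp, by simpa using hS⟩
  | succ m ih =>
    obtain ⟨T, hc, hb, hd, hg⟩ := ih
    obtain ⟨x, hx, hxn, hg'⟩ := exists_new (T ∪ S) hg hU hne
    rw [Finset.mem_union, not_or] at hxn
    refine ⟨insert x T, by rw [Finset.card_insert_of_notMem hxn.1, hc], ?_, ?_, ?_⟩
    · intro y hy
      rcases Finset.mem_insert.mp hy with rfl | hy
      exacts [hx, hb y hy]
    · rw [Finset.disjoint_insert_left]; exact ⟨hxn.2, hd⟩
    · rwa [Finset.insert_union]

theorem exists_clusters (box : ℕ → Set (ℝ × ℝ)) (hU : ∀ c, IsOpen (box c))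
    (hne : ∀ c, (box c).Nonempty) (m : ℕ → ℕ) (k : ℕ) :
    ∃ K : ℕ → Finset (ℝ × ℝ), (∀ c < k, (K c).card = m c) ∧ (∀ c, ∀ x ∈ K c, x ∈ box c) ∧
      (∀ c < k, ∀ d < k, c ≠ d → Disjoint (K c) (K d)) ∧ GP ((Finset.range k).biUnion K) := by
  classical
  induction k with
  | zero => exact ⟨fun _ => ∅, by simp, by simp, by simp, by simp [GP]⟩
  | succ k ih =>
    obtain ⟨K, h1, h2, h3, h4⟩ := ih
    obtain ⟨T, t1, t2, t3, t4⟩ := exists_cluster _ h4 (hU k) (hne k) (m k)
    have hT : ∀ c < k, Disjoint T (K c) := fun c hc =>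
      t3.mono_right (Finset.subset_biUnion_of_mem K (Finset.mem_range.mpr hc))
    refine ⟨Function.update K k T, ?_, ?_, ?_, ?_⟩
    · intro c hc
      by_cases e : c = k
      · subst e; simpa using t1
      · rw [Function.update_of_ne e]; exact h1 c (by omega)
    · intro c x hx
      by_cases e : c = k
      · subst e; exact t2 x (by simpa using hx)
      · rw [Function.update_of_ne e] at hx; exact h2 c x hx
    · intro c hc d hd hcd
      by_cases e : c = k
      · subst e
        rw [Function.update_self, Function.update_of_ne (Ne.symm hcd)]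
        exact hT d (by omega)
      by_cases e' : d = k
      · subst e'
        rw [Function.update_self, Function.update_of_ne e]
        exact (hT c (by omega)).symm
      rw [Function.update_of_ne e, Function.update_of_ne e']
      exact h3 c (by omega) d (by omega) hcd
    · have e : (Finset.range (k + 1)).biUnion (Function.update K k T) =
          T ∪ (Finset.range k).biUnion K := by
        rw [Finset.range_add_one, Finset.biUnion_insert, Function.update_self]
        congr 1
        refine Finset.biUnion_congr rfl ?_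
        intro c hc
        rw [Function.update_of_ne (Finset.mem_range.mp hc).ne]
      rwa [e]

/-- centres: even index on the parabola, odd index slightly above -/
noncomputable def ctr (c : ℕ) : ℝ × ℝ :=
  (((c / 2 : ℕ) : ℝ), ((c / 2 : ℕ) : ℝ) ^ 2 + ((c % 2 : ℕ) : ℝ) / 2)

theorem near (i j l : ℕ) (hij : i < j) (hjl : j < l) :
    ∀ᶠ e in nhdsWithin (0 : ℝ) (Set.Ioi 0), ∀ x ∈ Metric.ball (ctr (2 * i)) e,
      ∀ y ∈ Metric.ball (ctr (2 * j)) e, ∀ z ∈ Metric.ball (ctr (2 * l)) e,
      ∀ w ∈ Metric.ball (ctr (2 * j + 1)) e, 0 < det x y w ∧ 0 < det y z w ∧ 0 < det z x w := by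
  have ho : IsOpen {p : (ℝ × ℝ) × (ℝ × ℝ) × (ℝ × ℝ) × (ℝ × ℝ) |
      0 < det p.1 p.2.1 p.2.2.2 ∧ 0 < det p.2.1 p.2.2.1 p.2.2.2 ∧ 0 < det p.2.2.1 p.1 p.2.2.2} := by
    simp only [Set.ofPred_and]
    refine IsOpen.inter (isOpen_lt continuous_const ?_) (IsOpen.inter
      (isOpen_lt continuous_const ?_) (isOpen_lt continuous_const ?_)) <;>
      unfold det <;> fun_prop
  have e1 : ∀ m : ℕ, ctr (2 * m) = ((m : ℝ), (m : ℝ) ^ 2) := by
    intro m
    simp [ctr]
  have e2 : ctr (2 * j + 1) = ((j : ℝ), (j : ℝ) ^ 2 + 1 / 2) := by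
    have h1 : (2 * j + 1) / 2 = j := by omega
    have h2 : (2 * j + 1) % 2 = 1 := by omega
    simp [ctr, h1, h2]
  have a1 : (i : ℝ) + 1 ≤ j := by exact_mod_cast hij
  have a2 : (j : ℝ) + 1 ≤ l := by exact_mod_cast hjl
  have hm : (ctr (2 * i), ctr (2 * j), ctr (2 * l), ctr (2 * j + 1)) ∈
      {p : (ℝ × ℝ) × (ℝ × ℝ) × (ℝ × ℝ) × (ℝ × ℝ) |
      0 < det p.1 p.2.1 p.2.2.2 ∧ 0 < det p.2.1 p.2.2.1 p.2.2.2 ∧ 0 < det p.2.2.1 p.1 p.2.2.2} := by
    simp only [Set.mem_ofPred_eq, e1, e2, det]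
    refine ⟨by nlinarith, by nlinarith, ?_⟩
    have h3 : (1 : ℝ) ≤ ((l : ℝ) - j) * ((j : ℝ) - i) := by nlinarith
    have h4 : 0 < ((l : ℝ) - i) * (((l : ℝ) - j) * ((j : ℝ) - i) - 1 / 2) :=
      mul_pos (by linarith) (by linarith)
    nlinarith
  obtain ⟨d, hd, hsub⟩ := Metric.isOpen_iff.mp ho _ hm
  have : ∀ᶠ e in nhdsWithin (0 : ℝ) (Set.Ioi 0), e < d :=
    nhdsWithin_le_nhds (Iio_mem_nhds hd)
  filter_upwards [this] with e he x hx y hy z hz w hw
  have : (x, y, z, w) ∈ Metric.ball (ctr (2 * i), ctr (2 * j), ctr (2 * l), ctr (2 * j + 1)) d := by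
    rw [Metric.mem_ball] at hx hy hz hw ⊢
    simp only [Prod.dist_eq (x := (x, y, z, w)), Prod.dist_eq (x := (y, z, w)),
      Prod.dist_eq (x := (z, w)), max_lt_iff]
    exact ⟨by linarith, by linarith, by linarith, by linarith⟩
  exact hsub this

theorem config (N : ℕ) (m : ℕ → ℕ) :
    ∃ K : ℕ → Finset (ℝ × ℝ), (∀ c < 2 * N, (K c).card = m c) ∧
      (∀ c < 2 * N, ∀ d < 2 * N, c ≠ d → Disjoint (K c) (K d)) ∧
      GP ((Finset.range (2 * N)).biUnion K) ∧
      ∀ i j l, i < j → j < l → l < N → ∀ A : Set (ℝ × ℝ), ∀ x ∈ K (2 * i), ∀ y ∈ K (2 * j),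
        ∀ z ∈ K (2 * l), ∀ w ∈ K (2 * j + 1), x ∈ A → y ∈ A → z ∈ A → w ∈ convexHull ℝ A := by
  have h : ∀ᶠ e in nhdsWithin (0 : ℝ) (Set.Ioi 0), ∀ i ∈ Finset.range N, ∀ j ∈ Finset.range N,
      ∀ l ∈ Finset.range N, i < j → j < l → ∀ x ∈ Metric.ball (ctr (2 * i)) e,
      ∀ y ∈ Metric.ball (ctr (2 * j)) e, ∀ z ∈ Metric.ball (ctr (2 * l)) e,
      ∀ w ∈ Metric.ball (ctr (2 * j + 1)) e, 0 < det x y w ∧ 0 < det y z w ∧ 0 < det z x w := by
    simp only [Filter.eventually_all_finset]
    intro i _ j _ l _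
    by_cases h : i < j ∧ j < l
    · filter_upwards [near i j l h.1 h.2] with e he _ _ using he
    · exact Filter.Eventually.of_forall fun e h1 h2 => absurd ⟨h1, h2⟩ h
  obtain ⟨e, he, he0⟩ := (h.and self_mem_nhdsWithin).exists
  obtain ⟨K, h1, h2, h3, h4⟩ := exists_clusters (fun c => Metric.ball (ctr c) e)
    (fun _ => Metric.isOpen_ball) (fun _ => Metric.nonempty_ball.mpr he0) m (2 * N)
  refine ⟨K, h1, h3, h4, ?_⟩
  intro i j l hij hjl hl A x hx y hy z hz w hw hxA hyA hzA
  obtain ⟨d1, d2, d3⟩ := he i (Finset.mem_range.mpr (by omega)) j (Finset.mem_range.mpr (by omega))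
    l (Finset.mem_range.mpr hl) hij hjl x (h2 _ _ hx) y (h2 _ _ hy) z (h2 _ _ hz) w (h2 _ _ hw)
  exact mem_hull_of_inside hxA hyA hzA d1 d2 d3

/-- a multigraph with two more vertices than edges has two complementary deficient vertex sets -/
theorem deficient {ι : Type} (V : Finset ℕ) (E : Finset ι) (s : ι → Finset ℕ)
    (hs : ∀ e ∈ E, (s e).card ≤ 2) (hV : E.card + 2 ≤ V.card) :
    ∃ C ⊆ V, (E.filter fun e => ¬ Disjoint (s e) C).card < C.card ∧
      (E.filter fun e => ¬ Disjoint (s e) (V \ C)).card < (V \ C).card := by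
  classical
  obtain ⟨C, hC, hmin⟩ := Finset.exists_min_image
    (V.powerset.filter fun C => (E.filter fun e => ¬ Disjoint (s e) C).card < C.card) Finset.card
    ⟨V, by
      simp only [Finset.mem_filter, Finset.mem_powerset, subset_refl, true_and]
      have := Finset.card_filter_le E fun e => ¬ Disjoint (s e) V
      omega⟩
  simp only [Finset.mem_filter, Finset.mem_powerset, and_imp] at hC hmin
  have hrem : ∀ u ∈ C, (C.erase u).card ≤ (E.filter fun e => ¬ Disjoint (s e) (C.erase u)).card := by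
    intro u hu
    by_contra hc
    have := hmin (C.erase u) ((Finset.erase_subset u C).trans hC.1) (by omega)
    rw [Finset.card_erase_of_mem hu] at this
    have := Finset.card_pos.mpr ⟨u, hu⟩
    omega
  have hmono : ∀ u, (E.filter fun e => ¬ Disjoint (s e) (C.erase u)) ⊆
      (E.filter fun e => ¬ Disjoint (s e) C) := by
    intro u e he
    rw [Finset.mem_filter] at he ⊢
    exact ⟨he.1, fun h => he.2 (h.mono_right (Finset.erase_subset u C))⟩
  obtain ⟨u0, hu0⟩ : C.Nonempty := Finset.card_pos.mp (by omega)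
  have h1 : C.card ≤ (E.filter fun e => ¬ Disjoint (s e) C).card + 1 := by
    have := (hrem u0 hu0).trans (Finset.card_le_card (hmono u0))
    rw [Finset.card_erase_of_mem hu0] at this
    omega
  have hdis : Disjoint (E.filter fun e => ¬ Disjoint (s e) C)
      (E.filter fun e => ¬ Disjoint (s e) (V \ C)) := by
    rw [Finset.disjoint_left]
    intro e he he'
    rw [Finset.mem_filter, Finset.not_disjoint_iff] at he he'
    obtain ⟨hE, u, hus, huC⟩ := he
    obtain ⟨-, w, hws, hw⟩ := he'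
    have hwC : w ∉ C := (Finset.mem_sdiff.mp hw).2
    have hnot : e ∉ (E.filter fun e => ¬ Disjoint (s e) (C.erase u)) := by
      rw [Finset.mem_filter, Finset.not_disjoint_iff]
      rintro ⟨-, v, hvs, hv⟩
      rw [Finset.mem_erase] at hv
      have h3 : ({u, v, w} : Finset ℕ) ⊆ s e := by
        intro t ht
        simp only [Finset.mem_insert, Finset.mem_singleton] at ht
        rcases ht with rfl | rfl | rfl <;> assumption
      have h4 : ({u, v, w} : Finset ℕ).card = 3 := by
        rw [Finset.card_eq_three]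
        exact ⟨u, v, w, hv.1.symm, fun h => hwC (h ▸ huC), fun h => hwC (h ▸ hv.2), rfl⟩
      have := Finset.card_le_card h3
      have := hs e hE
      omega
    have hlt : (E.filter fun e => ¬ Disjoint (s e) (C.erase u)).card <
        (E.filter fun e => ¬ Disjoint (s e) C).card :=
      Finset.card_lt_card ⟨hmono u, fun h => hnot (h (Finset.mem_filter.mpr
        ⟨hE, Finset.not_disjoint_iff.mpr ⟨u, hus, huC⟩⟩))⟩
    have := hrem u huC
    rw [Finset.card_erase_of_mem huC] at this
    omega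
  refine ⟨C, hC.1, hC.2, ?_⟩
  have h2 := Finset.card_le_card (Finset.union_subset (Finset.filter_subset _ E)
    (Finset.filter_subset (fun e => ¬ Disjoint (s e) (V \ C)) E) :
    (E.filter fun e => ¬ Disjoint (s e) C) ∪ _ ⊆ E)
  rw [Finset.card_union_of_disjoint hdis] at h2
  have h3 := Finset.card_sdiff_of_subset hC.1
  have h4 := Finset.card_le_card hC.1
  omega

end Pool.Agent.P.MP_3fef46_co.H85
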