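import Mathlib
import Pool.Agent.P.MP_3fef46_co.H85.Gen

/-!
Blue clusters in convex position, red clusters piercing all their triangles.
-/

namespace Pool.Agent.P.MP_3fef46_co.H85

theorem mass_lower (C : Finset ℕ) (g : ℕ → ℕ) (x y : ℕ) (hne : C.Nonempty)
    (h1 : ∀ j, y ≤ g j) (h2 : ∀ j, 3 ≤ j → g j = x)
    (ht : (C ∩ Finset.range 3).card ≤ 1) : x * (C.card - 1) + y ≤ ∑ j ∈ C, g j := by
  obtain ⟨u, hu, hrest⟩ : ∃ u ∈ C, ∀ v ∈ C.erase u, 3 ≤ v := by
    by_cases h : (C ∩ Finset.range 3).Nonempty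
    · obtain ⟨u, hu⟩ := h
      refine ⟨u, (Finset.mem_inter.mp hu).1, fun v hv => ?_⟩
      by_contra hc
      rw [Finset.mem_erase] at hv
      exact hv.1 (Finset.card_le_one.mp ht v
        (Finset.mem_inter.mpr ⟨hv.2, Finset.mem_range.mpr (by omega)⟩) u hu)
    · obtain ⟨u, hu⟩ := hne
      refine ⟨u, hu, fun v hv => ?_⟩
      by_contra hc
      exact h ⟨v, Finset.mem_inter.mpr ⟨Finset.mem_of_mem_erase hv, Finset.mem_range.mpr (by omega)⟩⟩
  rw [← Finset.add_sum_erase C g hu, Finset.sum_congr rfl (fun v hv => h2 v (hrest v hv)),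
    Finset.sum_const, Finset.card_erase_of_mem hu, smul_eq_mul, mul_comm]
  have := h1 u
  omega

theorem sum_three (k x y z w : ℕ) :
    ∑ j ∈ Finset.range (k + 3), (if j = 0 then x else if j = 1 then y else if j = 2 then z else w) =
      x + y + z + k * w := by
  induction k with
  | zero => simp [Finset.sum_range_succ]
  | succ k ih =>
    rw [show k + 1 + 3 = (k + 3) + 1 by ring, Finset.sum_range_succ, ih]
    simp
    ring

theorem sum_red (k x w : ℕ) :
    ∑ j ∈ Finset.range (k + 1), (if j = 0 then x else w) = x + k * w := by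
  induction k with
  | zero => simp
  | succ k ih => rw [Finset.sum_range_succ, ih]; simp; ring

theorem bad (a b q M : ℕ) (ns : Fin q → ℕ) (I : Finset (Fin q)) (hI : I.Nonempty)
    (hM : ∀ i ∈ I, ns i ≤ M)
    (h1 : I.card * (a * M + 1) ≤ a * ∑ i, ns i)
    (h2 : I.card * (b * M) + 3 * (b * ∑ i ∈ Iᶜ, ns i + 1) ≤ b * ∑ i, ns i + b * M) :
    ∃ R B : Finset (ℝ × ℝ), Disjoint R B ∧ R.card = a * ∑ i, ns i ∧ B.card = b * ∑ i, ns i ∧
      (∀ x ∈ R ∪ B, ∀ y ∈ R ∪ B, ∀ z ∈ R ∪ B, x ≠ y → x ≠ z → y ≠ z →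
        ¬ Collinear ℝ ({x, y, z} : Set (ℝ × ℝ))) ∧
      ¬ ∃ P : Fin q → Finset (ℝ × ℝ),
        Finset.univ.biUnion P = R ∪ B ∧
        (∀ i j, i ≠ j →
          Disjoint (convexHull ℝ (P i : Set (ℝ × ℝ))) (convexHull ℝ (P j : Set (ℝ × ℝ)))) ∧
        (∀ i, (P i ∩ R).card = a * ns i ∧ (P i ∩ B).card = b * ns i) := by
  classical
  obtain ⟨k, hk⟩ : ∃ k, I.card = k + 1 := ⟨I.card - 1, by have := hI.card_pos; omega⟩
  set n := ∑ i, ns i with hn
  set β := ∑ i ∈ Iᶜ, ns i with hβ
  rw [hk] at h1 h2
  have hnle : n ≤ (k + 1) * M + β := by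
    rw [hn, ← Finset.sum_add_sum_compl I, ← hk]
    have : ∑ i ∈ I, ns i ≤ I.card * M := Finset.sum_le_card_nsmul I ns M hM
    omega
  have hbM : b * β + 1 ≤ b * M := by
    have := Nat.mul_le_mul_left b hnle
    nlinarith
  obtain ⟨r0, hr0⟩ : ∃ r0, a * n = r0 + (k + 1) * (a * M + 1) := ⟨a * n - (k + 1) * (a * M + 1), by omega⟩
  obtain ⟨g0, hg0⟩ : ∃ g0, b * n = (b * β + 1 + g0) + (b * β + 1) + (b * β + 1) + k * (b * M) :=
    ⟨b * n - (3 * (b * β + 1) + k * (b * M)), by
      have : (k + 1) * (b * M) = k * (b * M) + b * M := by ring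
      omega⟩
  set g : ℕ → ℕ := fun j => if j = 0 then b * β + 1 + g0 else if j = 1 then b * β + 1 else
    if j = 2 then b * β + 1 else b * M with hg
  set r : ℕ → ℕ := fun j => if j = k + 2 then 0 else if j = 0 then r0 else a * M + 1 with hr
  obtain ⟨K, hc, hd, hgp, hin⟩ := config (k + 3) fun c => if c % 2 = 0 then g (c / 2) else r (c / 2)
  have cB : ∀ j < k + 3, (K (2 * j)).card = g j := fun j hj => by
    rw [hc _ (by omega)]; simp
  have cR : ∀ j < k + 3, (K (2 * j + 1)).card = r j := fun j hj => by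
    rw [hc _ (by omega)]
    have e1 : (2 * j + 1) % 2 = 1 := by omega
    have e2 : (2 * j + 1) / 2 = j := by omega
    simp [e1, e2]
  have cardB : ∀ C ⊆ Finset.range (k + 3), (C.biUnion fun j => K (2 * j)).card = ∑ j ∈ C, g j := by
    intro C hC
    rw [Finset.card_biUnion]
    · exact Finset.sum_congr rfl fun j hj => cB j (Finset.mem_range.mp (hC hj))
    · intro i hi j hj hij
      have := Finset.mem_range.mp (hC hi)
      have := Finset.mem_range.mp (hC hj)
      exact hd _ (by omega) _ (by omega) (by omega)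
  refine ⟨(Finset.range (k + 3)).biUnion fun j => K (2 * j + 1),
    (Finset.range (k + 3)).biUnion fun j => K (2 * j), ?_, ?_, ?_, ?_, ?_⟩
  · rw [Finset.disjoint_biUnion_left]
    intro i hi
    rw [Finset.disjoint_biUnion_right]
    intro j hj
    rw [Finset.mem_range] at hi hj
    exact hd _ (by omega) _ (by omega) (by omega)
  · rw [Finset.card_biUnion]
    · rw [Finset.sum_congr rfl fun j hj => cR j (Finset.mem_range.mp hj), Finset.sum_range_succ,
        hr0, ← sum_red (k + 1) r0 (a * M + 1)]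
      simp only [if_true, add_zero]
      refine Finset.sum_congr rfl fun j hj => ?_
      rw [if_neg (Finset.mem_range.mp hj).ne]
    · intro i hi j hj hij
      have := Finset.mem_range.mp hi
      have := Finset.mem_range.mp hj
      exact hd _ (by omega) _ (by omega) (by omega)
  · rw [cardB _ subset_rfl, hg0, ← sum_three]
  · have hsub : ∀ x ∈ ((Finset.range (k + 3)).biUnion fun j => K (2 * j + 1)) ∪
        (Finset.range (k + 3)).biUnion fun j => K (2 * j),
        x ∈ (Finset.range (2 * (k + 3))).biUnion K := by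
      intro x hx
      simp only [Finset.mem_union, Finset.mem_biUnion, Finset.mem_range] at hx ⊢
      rcases hx with ⟨j, hj, h⟩ | ⟨j, hj, h⟩ <;> exact ⟨_, by omega, h⟩
    intro x hx y hy z hz hxy hxz hyz hcol
    exact hgp x (hsub x hx) y (hsub y hy) z (hsub z hz) hxy hxz hyz (det_eq_zero_of_collinear hcol)
  rintro ⟨P, hcov, hconv, hcard⟩
  set s : Fin q → Finset ℕ := fun i =>
    (Finset.range (k + 3)).filter fun j => ¬ Disjoint (P i) (K (2 * j)) with hs
  have hs2 : ∀ i ∈ I, (s i).card ≤ 2 := by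
    intro i hi
    by_contra hc3
    have key : ∀ u v w, u ∈ s i → v ∈ s i → w ∈ s i → u < v → v < w → False := by
      intro u v w hu hv hw huv hvw
      simp only [hs, Finset.mem_filter, Finset.mem_range, Finset.not_disjoint_iff] at hu hv hw
      obtain ⟨-, x, hxP, hx⟩ := hu
      obtain ⟨-, y, hyP, hy⟩ := hv
      obtain ⟨hw, z, hzP, hz⟩ := hw
      have hsub : K (2 * v + 1) ⊆ P i ∩ (Finset.range (k + 3)).biUnion fun j => K (2 * j + 1) := by
        intro p hp
        have hpR : p ∈ (Finset.range (k + 3)).biUnion fun j => K (2 * j + 1) :=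
          Finset.mem_biUnion.mpr ⟨v, Finset.mem_range.mpr (by omega), hp⟩
        have hh := hin u v w huv hvw hw (P i : Set (ℝ × ℝ)) x hx y hy z hz p hp hxP hyP hzP
        have : p ∈ Finset.univ.biUnion P := by rw [hcov]; exact Finset.mem_union_left _ hpR
        obtain ⟨i', -, hi'⟩ := Finset.mem_biUnion.mp this
        by_cases e : i = i'
        · exact Finset.mem_inter.mpr ⟨e ▸ hi', hpR⟩
        · exact absurd (subset_convexHull ℝ _ (Finset.mem_coe.mpr hi'))
            (Set.disjoint_left.mp (hconv i i' e) hh)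
      have h5 := Finset.card_le_card hsub
      rw [(hcard i).1, cR v (by omega)] at h5
      simp only [hr] at h5
      rw [if_neg (by omega), if_neg (by omega)] at h5
      have := Nat.mul_le_mul_left a (hM i hi)
      omega
    obtain ⟨u, hu, v, hv, w, hw, h1', h2', h3'⟩ := Finset.two_lt_card.mp (not_le.mp hc3)
    rcases lt_or_gt_of_ne h1' with c1 | c1 <;> rcases lt_or_gt_of_ne h2' with c2 | c2 <;>
      rcases lt_or_gt_of_ne h3' with c3 | c3
    · exact key u v w hu hv hw c1 c3
    · exact key u w v hu hw hv c2 c3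
    · omega
    · exact key w u v hw hu hv c2 c1
    · exact key v u w hv hu hw c1 c2
    · omega
    · exact key v w u hv hw hu c3 c2
    · exact key w v u hw hv hu c3 c1
  have fin : ∀ C ⊆ Finset.range (k + 3), (C ∩ Finset.range 3).card ≤ 1 →
      (I.filter fun e => ¬ Disjoint (s e) C).card < C.card → False := by
    intro C hC ht hlt
    have lo := mass_lower C g (b * M) (b * β + 1) (Finset.card_pos.mp (by omega))
      (fun j => by simp only [hg]; split_ifs <;> omega)
      (fun j hj => by simp only [hg]; rw [if_neg (by omega), if_neg (by omega), if_neg (by omega)]) ht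
    rw [← cardB C hC] at lo
    have hsub : (C.biUnion fun j => K (2 * j)) ⊆
        ((I.filter fun e => ¬ Disjoint (s e) C) ∪ Iᶜ).biUnion fun i =>
          P i ∩ (Finset.range (k + 3)).biUnion fun j => K (2 * j) := by
      intro p hp
      obtain ⟨j, hj, hpj⟩ := Finset.mem_biUnion.mp hp
      have hpB : p ∈ (Finset.range (k + 3)).biUnion fun j => K (2 * j) :=
        Finset.mem_biUnion.mpr ⟨j, hC hj, hpj⟩
      have : p ∈ Finset.univ.biUnion P := by rw [hcov]; exact Finset.mem_union_right _ hpB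
      obtain ⟨i, -, hi⟩ := Finset.mem_biUnion.mp this
      refine Finset.mem_biUnion.mpr ⟨i, ?_, Finset.mem_inter.mpr ⟨hi, hpB⟩⟩
      by_cases hiI : i ∈ I
      · refine Finset.mem_union_left _ (Finset.mem_filter.mpr ⟨hiI, ?_⟩)
        refine Finset.not_disjoint_iff.mpr ⟨j, ?_, hj⟩
        exact Finset.mem_filter.mpr ⟨hC hj, Finset.not_disjoint_iff.mpr ⟨p, hi, hpj⟩⟩
      · exact Finset.mem_union_right _ (Finset.mem_compl.mpr hiI)
    have up := (Finset.card_le_card hsub).trans Finset.card_biUnion_le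
    rw [Finset.sum_congr rfl fun i _ => (hcard i).2,
      Finset.sum_union (disjoint_compl_right.mono_left (Finset.filter_subset _ _)),
      ← Finset.mul_sum, ← Finset.mul_sum, ← hβ] at up
    have h6 : ∑ i ∈ I.filter fun e => ¬ Disjoint (s e) C, ns i ≤
        (I.filter fun e => ¬ Disjoint (s e) C).card * M :=
      Finset.sum_le_card_nsmul (I.filter fun e => ¬ Disjoint (s e) C) ns M
        fun i hi => hM i (Finset.mem_filter.mp hi).1
    have h7 : (I.filter fun e => ¬ Disjoint (s e) C).card * M ≤ (C.card - 1) * M :=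
      Nat.mul_le_mul_right _ (by omega)
    have h8 := Nat.mul_le_mul_left b (h6.trans h7)
    have h9 : b * ((C.card - 1) * M) = b * M * (C.card - 1) := by ring
    omega
  obtain ⟨C, hC, d1, d2⟩ := deficient (Finset.range (k + 3)) I s hs2 (by simp [hk])
  have hsum : (C ∩ Finset.range 3).card + ((Finset.range (k + 3) \ C) ∩ Finset.range 3).card ≤ 3 := by
    rw [← Finset.card_union_of_disjoint
      (Finset.disjoint_sdiff.mono Finset.inter_subset_left Finset.inter_subset_left)]
    exact (Finset.card_le_card (Finset.union_subset Finset.inter_subset_right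
      Finset.inter_subset_right)).trans (by simp)
  by_cases ht : (C ∩ Finset.range 3).card ≤ 1
  · exact fin C hC ht d1
  · exact fin _ Finset.sdiff_subset (by omega) d2

end Pool.Agent.P.MP_3fef46_co.H85
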